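import Mathlib

/-!
# Equal sums of sixth powers and of squares that do not satisfy Bremner's relations

`75, 154, 295 | 1, 173, 294` have equal sums of squares and of sixth powers, but no choice of
signs and arrangement satisfies the relations (R).
-/

namespace Pool.Agent.Results.MP_befb39_nt.RelationsFail

/-- The system (S) for the triples `v = (a,b,c)` and `w = (d,e,f)`. -/
def SystemS (v w : Fin 3 → ℤ) : Prop :=
  ∑ i, w i ^ 6 = ∑ i, v i ^ 6 ∧ ∑ i, w i ^ 2 = ∑ i, v i ^ 2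

/-- A solution is trivial if the multisets `{a²,b²,c²}` and `{d²,e²,f²}` agree. -/
def TrivialSol (v w : Fin 3 → ℤ) : Prop :=
  (Finset.univ.val.map fun i => v i ^ 2) = (Finset.univ.val.map fun i => w i ^ 2)

/-- The three quadratic relations (R) for `v = (a,b,c)`, `w = (d,e,f)`. -/
def RelR (v w : Fin 3 → ℤ) : Prop :=
  w 2 ^ 2 + w 2 * v 2 - v 2 ^ 2 = v 0 ^ 2 + v 0 * w 0 - w 0 ^ 2 ∧
  w 0 ^ 2 + w 0 * v 0 - v 0 ^ 2 = v 1 ^ 2 + v 1 * w 1 - w 1 ^ 2 ∧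
  w 1 ^ 2 + w 1 * v 1 - v 1 ^ 2 = v 2 ^ 2 + v 2 * w 2 - w 2 ^ 2

/-- `RelRUpToSymmetry v w`: some sextuple obtained from `(v, w)` by sign changes of entries,
permutations of `v`, permutations of `w` and possibly exchanging the two triples
satisfies (R). -/
def RelRUpToSymmetry (v w : Fin 3 → ℤ) : Prop :=
  ∃ (σ τ : Equiv.Perm (Fin 3)) (s t : Fin 3 → ℤˣ),
    RelR (fun i => s i * v (σ i)) (fun i => t i * w (τ i)) ∨
    RelR (fun i => t i * w (τ i)) (fun i => s i * v (σ i))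

def V : Fin 3 → ℤ := ![75, 154, 295]
def W : Fin 3 → ℤ := ![1, 173, 294]

lemma key : ∀ i j k l : Fin 3, i ≠ l → j ≠ k → ∀ s₁ s₂ s₃ s₄ : Fin 2,
    (((-1) ^ (s₁ : ℕ) * W i) ^ 2 + ((-1) ^ (s₁ : ℕ) * W i) * ((-1) ^ (s₂ : ℕ) * V j)
      - ((-1) ^ (s₂ : ℕ) * V j) ^ 2 ≠
    ((-1) ^ (s₃ : ℕ) * V k) ^ 2 + ((-1) ^ (s₃ : ℕ) * V k) * ((-1) ^ (s₄ : ℕ) * W l)
      - ((-1) ^ (s₄ : ℕ) * W l) ^ 2 : Prop) := by
  decide +kernel

lemma key' : ∀ i j k l : Fin 3, i ≠ l → j ≠ k → ∀ s₁ s₂ s₃ s₄ : Fin 2,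
    (((-1) ^ (s₁ : ℕ) * V i) ^ 2 + ((-1) ^ (s₁ : ℕ) * V i) * ((-1) ^ (s₂ : ℕ) * W j)
      - ((-1) ^ (s₂ : ℕ) * W j) ^ 2 ≠
    ((-1) ^ (s₃ : ℕ) * W k) ^ 2 + ((-1) ^ (s₃ : ℕ) * W k) * ((-1) ^ (s₄ : ℕ) * V l)
      - ((-1) ^ (s₄ : ℕ) * V l) ^ 2 : Prop) := by
  decide +kernel

lemma unit_eq (u : ℤˣ) : ∃ s : Fin 2, (u : ℤ) = (-1) ^ (s : ℕ) := by
  rcases Int.units_eq_one_or u with h | h
  · exact ⟨0, by simp [h]⟩
  · exact ⟨1, by simp [h]⟩

lemma notRel : ¬ RelRUpToSymmetry V W := by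
  rintro ⟨σ, τ, s, t, h | h⟩
  · have h1 := h.1
    obtain ⟨a, ha⟩ := unit_eq (t 2)
    obtain ⟨b, hb⟩ := unit_eq (s 2)
    obtain ⟨c, hc⟩ := unit_eq (s 0)
    obtain ⟨d, hd⟩ := unit_eq (t 0)
    simp only [ha, hb, hc, hd] at h1
    refine key (τ 2) (σ 2) (σ 0) (τ 0) ?_ ?_ a b c d h1
    · exact fun h => by simpa using τ.injective h
    · exact fun h => by simpa using σ.injective h
  · have h1 := h.1
    obtain ⟨a, ha⟩ := unit_eq (s 2)
    obtain ⟨b, hb⟩ := unit_eq (t 2)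
    obtain ⟨c, hc⟩ := unit_eq (t 0)
    obtain ⟨d, hd⟩ := unit_eq (s 0)
    simp only [ha, hb, hc, hd] at h1
    refine key' (σ 2) (τ 2) (τ 0) (σ 0) ?_ ?_ a b c d h1
    · exact fun h => by simpa using σ.injective h
    · exact fun h => by simpa using τ.injective h

/-- There is a nontrivial integer solution of (S) no rearrangement of which satisfies (R). -/
theorem result :
    ¬ ∀ v w : Fin 3 → ℤ, SystemS v w → ¬ TrivialSol v w → RelRUpToSymmetry v w := by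
  intro h
  refine notRel (h V W ?_ ?_)
  · constructor <;> simp [Fin.sum_univ_three, V, W]
  · unfold TrivialSol
    decide

end Pool.Agent.Results.MP_befb39_nt.RelationsFail
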